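import Mathlib

/-! The only definition used in the statement: Runge sets in `ℂⁿ`. -/

namespace Pool.Agent.MP_2790d1_an

/-- `Ω ⊆ ℂⁿ` is Runge: every holomorphic function on `Ω` is approximated, uniformly on each
compact subset of `Ω`, by holomorphic polynomials. -/
def IsRunge {n : ℕ} (Ω : Set (EuclideanSpace ℂ (Fin n))) : Prop :=
  ∀ g : EuclideanSpace ℂ (Fin n) → ℂ, DifferentiableOn ℂ g Ω →
    ∀ K ⊆ Ω, IsCompact K → ∀ ε : ℝ, 0 < ε →
      ∃ P : MvPolynomial (Fin n) ℂ, ∀ x ∈ K, ‖MvPolynomial.eval (fun i => x i) P - g x‖ < ε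

end Pool.Agent.MP_2790d1_an
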